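import Pool.Agent.H176Z.Main

set_option autoImplicit false

open Pool.Agent.H176Z

/-- For a sorting alternating word `Q` in a finite Coxeter system, the subword complex
equivalence is a lattice congruence of `[e, ω]` and the Hasse diagram of the quotient is the
graph of extremal increasing flips between acyclic facets. -/
theorem Pool.Agent.Results.MP_5a5888_co.ASortingAlt.result
    {B W : Type*} [Fintype B] [DecidableEq B] [Group W] [Finite W] {M : CoxeterMatrix B}
    (cs : CoxeterSystem M W) {m : ℕ} (Q : Fin m → B) (ω : W)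
    (hS : ∃ X, cs.IsReduced (subword Q X) ∧
      ∀ w, cs.length w ≤ cs.length (cs.wordProd (subword Q X)))
    (hA : Alternating cs Q) :
    ∃ L : Lattice {x // WeakLE cs x ω}, (∀ x y, L.le x y ↔ WeakLE cs x.1 y.1) ∧
      ∃ c : @LatticeCon _ L, (∀ x y, c.r x y ↔ SCEquiv cs Q ω x.1 y.1) ∧
        ∃ e : Quotient c.toSetoid ≃ {I // IsFacet cs Q ω I ∧ ∃ p, LinExt cs Q I p},
          (∀ x, LinExt cs Q (e (Quotient.mk c.toSetoid x)).1 x.1) ∧
          ∀ a b, QCov c a b ↔ ExtFlip cs Q (e a).1 (e b).1 := by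
  obtain ⟨X, h1, h2⟩ := hS
  obtain ⟨hne, hs⟩ := sorting_facts h1 h2 ω
  obtain ⟨L, hL⟩ := exists_lattice cs ω
  obtain ⟨c, hc⟩ := exists_con hL hA hne
  exact ⟨L, hL, c, hc, exists_equiv hL hA hne c hc _ fun I =>
    ⟨fun ⟨h, p, hp⟩ => ⟨h, p, hs I p h hp, hp⟩, fun ⟨h, p, _, hp⟩ => ⟨h, p, hp⟩⟩⟩
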